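import Pool.Agent.helper78.WB.SpecIII

/-!
# Project wb, Part III, row PBL: points on an irreducible form of large degree
-/

set_option autoImplicit false

namespace Pool.Agent.WB

open MvPolynomial

namespace PBLaux

/-- the number of monomials of degree `d - 1` is `d (d + 1) / 2` -/
theorem s3_pred {d : ℕ} (hd : 1 ≤ d) : 2 * s3 (d - 1) = d * (d + 1) := by
  unfold s3
  have h1 : d - 1 + 1 = d := by omega
  have h2 : d - 1 + 2 = d + 1 := by omega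
  rw [h1, h2]
  have h3 : 2 ∣ d * (d + 1) := (Nat.even_mul_succ_self d).two_dvd
  exact Nat.mul_div_cancel' h3

theorem s3_le {d N : ℕ} (hd : 1 ≤ d) (hdN : d ≤ N) : s3 (d - 1) ≤ N ^ 2 := by
  have h := s3_pred hd
  nlinarith

theorem s3_pos (n : ℕ) : 1 ≤ s3 n := by
  unfold s3
  have h : 2 ≤ (n + 1) * (n + 2) := by nlinarith
  exact (Nat.le_div_iff_mul_le (by norm_num)).2 (by omega)

/-- combinatorial form of the bound, with all parameters explicit -/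
theorem core (h1 : BAD_stmt) (h2 : GC_stmt) (h3 : PRJ_stmt) (h4 : ZIN_stmt)
    (t : ℕ) (ht : 1 ≤ t) (k M J : ℕ) (hk : k = 36 * t) (hM : M = (k + 1) * s3 k + 1)
    (hJ : J = t * M) (N d x : ℕ) (hd : k + 2 ≤ d) (hdN : d ≤ N)
    (hsN : s3 k ≤ N) (hx1 : 1 ≤ x) (hx : N ≤ x ^ t)
    (p : MvPolynomial (Fin 3) ℤ) (hp : Irreducible p) (hpd : p.IsHomogeneous d)
    (S : Finset V3) (hS : NP S)
    (hS2 : ∀ ζ ∈ S, IsCoprime (ζ 0) (ζ 1) ∧ (∀ i, |ζ i| ≤ (N : ℤ)) ∧ eval ζ p = 0) :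
    S.card ≤ d ^ 2 + J * (3 * (2 ^ J * x) ^ 2 * d ^ 2) := by
  classical
  obtain ⟨m, hm⟩ : ∃ m : ℕ, m = d / (6 * t) + 1 := ⟨_, rfl⟩
  have hN1 : 2 ≤ N := by omega
  -- the two properties of `m`
  have hm1 : (m - 1) * (6 * t) ≤ d := by
    rw [hm, Nat.add_sub_cancel]
    exact Nat.div_mul_le_self d (6 * t)
  have hm2 : d < m * (6 * t) := by
    rw [hm]
    have h6 : 0 < 6 * t := by omega
    have hlt := Nat.lt_mul_div_succ d h6
    rw [Nat.mul_comm]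
    exact hlt
  have hmpos : 1 ≤ m := by
    rw [hm]
    exact Nat.succ_le_succ (Nat.zero_le _)
  have hmk : 6 * d ≤ m * (k + 1) := by
    rw [hk]
    nlinarith
  have hdmk : d + 1 ≤ m * (k + 1) := by omega
  have hz := h4 d k m (by omega) hmpos hmk
  -- the primes
  obtain ⟨LL, hLLc, hLL⟩ := h3 J x hx1
  have hprod : (s3 k * N ^ k) ^ s3 k < ∏ ℓ ∈ LL, ℓ := by
    have e1 : x ^ J ≤ ∏ ℓ ∈ LL, ℓ := by
      rw [← hLLc]
      exact Finset.pow_card_le_prod LL (fun ℓ => ℓ) x (fun ℓ hℓ => (hLL ℓ hℓ).2.1.le)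
    have e2 : N ^ M ≤ x ^ J := by
      rw [hJ, pow_mul]
      exact Nat.pow_le_pow_left hx M
    have e3 : (s3 k * N ^ k) ^ s3 k ≤ N ^ ((k + 1) * s3 k) := by
      rw [pow_mul]
      apply Nat.pow_le_pow_left
      rw [pow_succ, Nat.mul_comm]
      exact Nat.mul_le_mul_left _ hsN
    have e4 : N ^ ((k + 1) * s3 k) < N ^ M := by
      apply Nat.pow_lt_pow_right (by omega)
      omega
    omega
  -- the bad points
  let V : Finset V3 := S.filter (fun ζ => ∀ ℓ ∈ LL, ∃ j : Fin 3, ¬ (ℓ : ℤ) ∣ ζ j ∧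
    ordGE m (loc j (redv ℓ ζ) (redp ℓ p)))
  let G : ℕ → Finset V3 := fun ℓ => S.filter (fun ζ => ∃ j : Fin 3, ¬ (ℓ : ℤ) ∣ ζ j ∧
    ¬ ordGE m (loc j (redv ℓ ζ) (redp ℓ p)))
  have hcov : S ⊆ V ∪ LL.biUnion G := by
    intro ζ hζ
    by_cases hb : ∀ ℓ ∈ LL, ∃ j : Fin 3, ¬ (ℓ : ℤ) ∣ ζ j ∧
        ordGE m (loc j (redv ℓ ζ) (redp ℓ p))
    · exact Finset.mem_union_left _ (Finset.mem_filter.2 ⟨hζ, hb⟩)
    · apply Finset.mem_union_right
      push Not at hb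
      obtain ⟨ℓ, hℓ, hb⟩ := hb
      refine Finset.mem_biUnion.2 ⟨ℓ, hℓ, Finset.mem_filter.2 ⟨hζ, ?_⟩⟩
      have hcop := (hS2 ζ hζ).1
      have hpr := (hLL ℓ hℓ).1
      by_cases h0 : (ℓ : ℤ) ∣ ζ 0
      · have h1' : ¬ (ℓ : ℤ) ∣ ζ 1 := by
          intro h1'
          have hu := hcop.isUnit_of_dvd' h0 h1'
          exact (Nat.prime_iff_prime_int.1 hpr).not_isUnit hu
        exact ⟨1, h1', hb 1 h1'⟩
      · exact ⟨0, h0, hb 0 h0⟩
  have hV : V.card ≤ d * k := by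
    apply h1 N d k m p hp hpd (by omega) hmpos hdmk hz LL (fun ℓ hℓ => (hLL ℓ hℓ).1) hprod V
    · intro ζ hζ η hη hne
      exact hS ζ (Finset.mem_filter.1 hζ).1 η (Finset.mem_filter.1 hη).1 hne
    · intro ζ hζ
      have hζS := (Finset.mem_filter.1 hζ).1
      refine ⟨?_, (hS2 ζ hζS).2.1, (hS2 ζ hζS).2.2⟩
      intro h0
      have hcop := (hS2 ζ hζS).1
      rw [h0] at hcop
      obtain ⟨a, b, hab⟩ := hcop
      simp at hab
    · intro ℓ hℓ ζ hζ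
      exact (Finset.mem_filter.1 hζ).2 ℓ hℓ
  -- the good points of each prime
  have hG : ∀ ℓ ∈ LL, (G ℓ).card ≤ 3 * (2 ^ J * x) ^ 2 * d ^ 2 := by
    intro ℓ hℓ
    obtain ⟨hpr, hxl, hlx⟩ := hLL ℓ hℓ
    have : Fact ℓ.Prime := ⟨hpr⟩
    have hb : (G ℓ).card ≤ 3 * ℓ ^ 2 * (d * (d - 1)) := by
      apply h2 ℓ N d m (t * (d + 1) + 1) p hp hpd (by omega) (by omega) hmpos
      · have hs := s3_pred (d := d) (by omega)
        have e1 : 2 * (t * (d + 1) + 1) - 1 ≤ 3 * (t * (d + 1)) := by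
          have : 1 ≤ t * (d + 1) := Nat.succ_le_of_lt (Nat.mul_pos (by omega) (by omega))
          omega
        have e2 : (m - 1) * (2 * (t * (d + 1) + 1) - 1) ≤ (m - 1) * (3 * (t * (d + 1))) :=
          Nat.mul_le_mul_left _ e1
        have e3 : 2 * ((m - 1) * (3 * (t * (d + 1)))) = ((m - 1) * (6 * t)) * (d + 1) := by ring
        have e4 : ((m - 1) * (6 * t)) * (d + 1) ≤ d * (d + 1) := Nat.mul_le_mul_right _ hm1
        omega
      · have e1 : t * (d + 1) + 1 - 1 = t * (d + 1) := by omega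
        rw [e1]
        have e2 : x ^ (t * (d + 1)) < ℓ ^ (t * (d + 1)) := by
          apply Nat.pow_lt_pow_left hxl
          exact (Nat.mul_pos (by omega) (by omega)).ne'
        have e3 : N ^ (d + 1) ≤ x ^ (t * (d + 1)) := by
          rw [pow_mul]
          exact Nat.pow_le_pow_left hx _
        have e4 : s3 (d - 1) * N ^ (d - 1) ≤ N ^ 2 * N ^ (d - 1) :=
          Nat.mul_le_mul_right _ (s3_le (by omega) hdN)
        have e5 : N ^ 2 * N ^ (d - 1) = N ^ (d + 1) := by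
          rw [← pow_add]
          congr 1
          omega
        omega
      · intro ζ hζ η hη hne
        exact hS ζ (Finset.mem_filter.1 hζ).1 η (Finset.mem_filter.1 hη).1 hne
      · intro ζ hζ
        have hζS := (Finset.mem_filter.1 hζ).1
        exact ⟨(hS2 ζ hζS).2.1, (hS2 ζ hζS).2.2, (Finset.mem_filter.1 hζ).2⟩
    refine hb.trans ?_
    have e1 : ℓ ^ 2 ≤ (2 ^ J * x) ^ 2 := Nat.pow_le_pow_left hlx 2
    have e2 : d * (d - 1) ≤ d ^ 2 := by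
      rw [pow_two]
      exact Nat.mul_le_mul_left _ (Nat.sub_le d 1)
    exact Nat.mul_le_mul (Nat.mul_le_mul_left 3 e1) e2
  calc S.card ≤ (V ∪ LL.biUnion G).card := Finset.card_le_card hcov
    _ ≤ V.card + (LL.biUnion G).card := Finset.card_union_le _ _
    _ ≤ d * k + ∑ ℓ ∈ LL, (G ℓ).card := Nat.add_le_add hV Finset.card_biUnion_le
    _ ≤ d ^ 2 + ∑ ℓ ∈ LL, 3 * (2 ^ J * x) ^ 2 * d ^ 2 := by
        apply Nat.add_le_add
        · rw [pow_two]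
          exact Nat.mul_le_mul_left _ (by omega)
        · exact Finset.sum_le_sum hG
    _ = d ^ 2 + J * (3 * (2 ^ J * x) ^ 2 * d ^ 2) := by
        rw [Finset.sum_const, hLLc, smul_eq_mul]

end PBLaux

theorem PBL (h1 : BAD_stmt) (h2 : GC_stmt) (h3 : PRJ_stmt) (h4 : ZIN_stmt) : PBL_stmt := by
  intro ε hε
  -- the parameters
  obtain ⟨t, ht⟩ := exists_nat_gt (3 / ε)
  have htpos : (0 : ℝ) < t := lt_trans (by positivity) ht
  have ht1 : 1 ≤ t := by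
    have : (0 : ℝ) < t := htpos
    exact_mod_cast this
  obtain ⟨k, hk⟩ : ∃ k : ℕ, k = 36 * t := ⟨_, rfl⟩
  obtain ⟨M, hM⟩ : ∃ M : ℕ, M = (k + 1) * s3 k + 1 := ⟨_, rfl⟩
  obtain ⟨J, hJ⟩ : ∃ J : ℕ, J = t * M := ⟨_, rfl⟩
  obtain ⟨A, hA⟩ : ∃ A : ℕ, A = 1 + 12 * J * (2 ^ J) ^ 2 := ⟨_, rfl⟩
  refine ⟨k + 2, max (s3 k) (max 2 (A ^ t)), ?_⟩
  intro N hN d hd hdN p hp hpd S hS hS2
  have hN1 : s3 k ≤ N := le_trans (le_max_left _ _) hN
  have hN2 : 2 ≤ N := le_trans (le_trans (le_max_left _ _) (le_max_right _ _)) hN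
  have hN3 : A ^ t ≤ N := le_trans (le_trans (le_max_right _ _) (le_max_right _ _)) hN
  have hNr : (1 : ℝ) ≤ N := by exact_mod_cast (by omega : 1 ≤ N)
  have hN0 : (0 : ℝ) ≤ N := by linarith
  -- the real root
  obtain ⟨y, hy⟩ : ∃ y : ℝ, y = (N : ℝ) ^ (1 / (t : ℝ)) := ⟨_, rfl⟩
  have hy1 : 1 ≤ y := by
    rw [hy]
    exact Real.one_le_rpow hNr (by positivity)
  have hyt : y ^ t = N := by
    rw [hy, ← Real.rpow_natCast, ← Real.rpow_mul hN0]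
    rw [one_div_mul_cancel htpos.ne', Real.rpow_one]
  have hAy : (A : ℝ) ≤ y := by
    have h : (A : ℝ) ^ t ≤ y ^ t := by
      rw [hyt]
      exact_mod_cast hN3
    exact le_of_pow_le_pow_left₀ (by omega) (by linarith) h
  -- `x`
  obtain ⟨x, hx⟩ : ∃ x : ℕ, x = ⌈y⌉₊ := ⟨_, rfl⟩
  have hxy : y ≤ x := by
    rw [hx]
    exact Nat.le_ceil y
  have hxy2 : (x : ℝ) ≤ 2 * y := by
    have : (x : ℝ) < y + 1 := by
      rw [hx]
      exact Nat.ceil_lt_add_one (by linarith)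
    linarith
  have hx1 : 1 ≤ x := by
    have : (1 : ℝ) ≤ x := le_trans hy1 hxy
    exact_mod_cast this
  have hxt : N ≤ x ^ t := by
    have : (N : ℝ) ≤ (x : ℝ) ^ t := by
      rw [← hyt]
      exact pow_le_pow_left₀ (by linarith) hxy t
    exact_mod_cast this
  have hcore := PBLaux.core h1 h2 h3 h4 t ht1 k M J hk hM hJ N d x hd hdN hN1 hx1 hxt p hp hpd
    S hS hS2
  have hcoreR : (S.card : ℝ) ≤
      (d : ℝ) ^ 2 + J * (3 * (2 ^ J * x) ^ 2 * (d : ℝ) ^ 2) := by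
    exact_mod_cast hcore
  have hstep : (d : ℝ) ^ 2 + J * (3 * (2 ^ J * x) ^ 2 * (d : ℝ) ^ 2) ≤ y ^ 3 * (d : ℝ) ^ 2 := by
    have e1 : (x : ℝ) ^ 2 ≤ 4 * y ^ 2 := by
      have : (x : ℝ) ^ 2 ≤ (2 * y) ^ 2 := pow_le_pow_left₀ (by positivity) hxy2 2
      nlinarith
    have e2 : (1 : ℝ) ≤ y ^ 2 := one_le_pow₀ hy1
    have e3 : (A : ℝ) = 1 + 12 * J * (2 ^ J) ^ 2 := by
      rw [hA]
      push_cast
      ring
    have e4 : 1 + (J : ℝ) * (3 * (2 ^ J * x) ^ 2) ≤ y ^ 3 := by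
      have e5 : (J : ℝ) * (3 * (2 ^ J * x) ^ 2) ≤ 12 * J * (2 ^ J) ^ 2 * y ^ 2 := by
        have : (J : ℝ) * (3 * (2 ^ J * x) ^ 2) = 3 * J * (2 ^ J) ^ 2 * x ^ 2 := by ring
        rw [this]
        have h5 : (0 : ℝ) ≤ 3 * J * (2 ^ J) ^ 2 := by positivity
        nlinarith [mul_le_mul_of_nonneg_left e1 h5]
      have e6 : (A : ℝ) * y ^ 2 ≤ y ^ 3 := by
        have h6 : (0 : ℝ) ≤ y ^ 2 := by positivity
        nlinarith [mul_le_mul_of_nonneg_right hAy h6]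
      rw [e3] at e6
      nlinarith
    have e7 : (0 : ℝ) ≤ (d : ℝ) ^ 2 := by positivity
    nlinarith [mul_le_mul_of_nonneg_right e4 e7]
  have hfin : y ^ 3 ≤ (N : ℝ) ^ ε := by
    rw [hy, ← Real.rpow_natCast, ← Real.rpow_mul hN0]
    apply Real.rpow_le_rpow_of_exponent_le hNr
    push_cast
    rw [one_div, inv_mul_eq_div, div_le_iff₀ htpos]
    rw [div_lt_iff₀ hε] at ht
    linarith
  have e7 : (0 : ℝ) ≤ (d : ℝ) ^ 2 := by positivity
  calc (S.card : ℝ) ≤ (d : ℝ) ^ 2 + J * (3 * (2 ^ J * x) ^ 2 * (d : ℝ) ^ 2) := hcoreR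
    _ ≤ y ^ 3 * (d : ℝ) ^ 2 := hstep
    _ ≤ (N : ℝ) ^ ε * (d : ℝ) ^ 2 := mul_le_mul_of_nonneg_right hfin e7

end Pool.Agent.WB
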